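import Pool.Agent.Lib.MP_75b31c_lc.N40.Iface

set_option autoImplicit false

/-!
# MAJ and MAJG: majorities
-/

namespace Pool.Agent.Lib.MP_75b31c_lc.N40.H09

open Pool.Agent.Lib.MP_75b31c_lc.H40
open Filter

/-- the majority of `N` optional bits -/
def mj (N : ℕ) (o : ℕ → Option Bool) : Option Bool :=
  if N < 2 * ((Finset.range N).filter fun j => o j = some true).card then some true
  else if N < 2 * ((Finset.range N).filter fun j => o j = some false).card then some false else none

theorem mj_iff (N : ℕ) (o : ℕ → Option Bool) (b : Bool) :
    mj N o = some b ↔ N < 2 * ((Finset.range N).filter fun j => o j = some b).card := by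
  have hdis : ((Finset.range N).filter fun j => o j = some true).card +
      ((Finset.range N).filter fun j => o j = some false).card ≤ N := by
    rw [← Finset.card_union_of_disjoint]
    · exact (Finset.card_le_card (Finset.union_subset (Finset.filter_subset _ _)
        (Finset.filter_subset _ _))).trans (Finset.card_range N).le
    · rw [Finset.disjoint_left]
      intro j h1 h2
      rw [Finset.mem_filter] at h1 h2
      rw [h1.2] at h2
      simp at h2
  unfold mj
  cases b
  · split_ifs with h1 h2
    · simp; omega
    · simp; omega
    · simp; omega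
  · split_ifs with h1 h2
    · simp; omega
    · simp; omega
    · simp; omega

theorem countP_range_eq (N : ℕ) (f : ℕ → Bool) :
    (List.range N).countP f = ((Finset.range N).filter fun j => f j = true).card := by
  have := Nat.count_eq_card_filter_range (fun j => f j = true) N
  rw [← this, Nat.count]
  congr 1
  funext j
  simp

theorem majAt_range (N : ℕ) (φ : ℕ → List Bool) (k : ℕ) :
    majAt ((List.range N).map φ) k = mj N fun j => (φ j)[k]? := by
  unfold majAt mj
  rw [List.countP_map, List.countP_map, List.length_map, List.length_range, countP_range_eq,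
    countP_range_eq]
  simp only [Function.comp, beq_iff_eq]

theorem majO_range (N : ℕ) (o : ℕ → Option Bool) :
    majO ((List.range N).map o) = mj N o := by
  unfold majO mj
  rw [List.countP_map, List.countP_map, List.length_map, List.length_range, countP_range_eq,
    countP_range_eq]
  simp only [Function.comp, beq_iff_eq]

/-- pigeonhole -/
theorem exists_common {N : ℕ} {A B : Finset ℕ} (hA : A ⊆ Finset.range N) (hB : B ⊆ Finset.range N)
    (h1 : N < 2 * A.card) (h2 : N < 2 * B.card) : ∃ j, j ∈ A ∧ j ∈ B := by
  by_contra hcon
  push Not at hcon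
  have hd : Disjoint A B := Finset.disjoint_left.2 hcon
  have := (Finset.card_union_of_disjoint hd) ▸ Finset.card_le_card (Finset.union_subset hA hB)
  rw [Finset.card_range] at this
  omega

/-! ### computability -/

theorem countP_primrec {α : Type} [Primcodable α] (R : α → ℕ → Prop) [DecidableRel R]
    (hR : PrimrecRel R) : Primrec fun q : List α × ℕ => (q.1.filter (fun l => R l q.2)).length :=
  Primrec.list_length.comp (PrimrecRel.listFilter hR)

theorem maj_gen {α : Type} [Primcodable α] (R1 R2 : α → ℕ → Prop) [DecidableRel R1]
    [DecidableRel R2] (h1 : PrimrecRel R1) (h2 : PrimrecRel R2) :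
    Primrec fun q : List α × ℕ =>
      if q.1.length < 2 * (q.1.filter (fun l => R1 l q.2)).length then some true
      else if q.1.length < 2 * (q.1.filter (fun l => R2 l q.2)).length then some false
      else none := by
  have hl : Primrec fun q : List α × ℕ => q.1.length := Primrec.list_length.comp Primrec.fst
  refine Primrec.ite (Primrec.nat_lt.comp hl (Primrec.nat_double.comp (countP_primrec R1 h1)))
    (Primrec.const _) ?_
  exact Primrec.ite (Primrec.nat_lt.comp hl (Primrec.nat_double.comp (countP_primrec R2 h2)))
    (Primrec.const _) (Primrec.const _)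

theorem majAt_primrec : Primrec fun q : List (List Bool) × ℕ => majAt q.1 q.2 := by
  have hR : ∀ b : Bool, PrimrecRel fun (l : List Bool) (k : ℕ) => l[k]? = some b := by
    intro b
    exact Primrec.eq.comp (Primrec.list_getElem?.comp Primrec.fst Primrec.snd) (Primrec.const _)
  refine (maj_gen _ _ (hR true) (hR false)).of_eq fun q => ?_
  unfold majAt
  rw [List.countP_eq_length_filter, List.countP_eq_length_filter]
  simp only [beq_eq_decide]

theorem majO_primrec : Primrec majO := by
  have hR : ∀ b : Bool, PrimrecRel fun (l : Option Bool) (_ : ℕ) => l = some b := by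
    intro b
    exact Primrec.eq.comp Primrec.fst (Primrec.const _)
  have h := (maj_gen _ _ (hR true) (hR false)).comp (Primrec.pair Primrec.id (Primrec.const 0))
  refine h.of_eq fun q => ?_
  unfold majO
  rw [List.countP_eq_length_filter, List.countP_eq_length_filter]
  simp only [beq_eq_decide, id]

theorem comb_primrec : Primrec comb := by
  unfold comb
  have hsum : Primrec fun Ls : List (List Bool) => (Ls.map List.length).sum := by
    have h := Primrec.list_foldr (f := fun Ls : List (List Bool) => Ls) (g := fun _ => (0 : ℕ))
      (h := fun _ (q : List Bool × ℕ) => q.1.length + q.2) Primrec.id (Primrec.const 0)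
      (Primrec.nat_add.comp (Primrec.list_length.comp (Primrec.fst.comp Primrec.snd))
        (Primrec.snd.comp Primrec.snd))
    refine h.of_eq fun Ls => ?_
    induction Ls with
    | nil => rfl
    | cons a Ls ih => simp only [List.foldr_cons, List.map_cons, List.sum_cons, ih]
  have htoList : Primrec fun o : Option Bool => o.toList := by
    have h := Primrec.option_casesOn (o := fun o : Option Bool => o) (f := fun _ => ([] : List Bool))
      (g := fun _ b => [b]) Primrec.id (Primrec.const []) (Primrec.list_cons.comp Primrec.snd
        (Primrec.const []))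
    refine h.of_eq fun o => ?_
    cases o <;> rfl
  have hstep : Primrec fun r : List (List Bool) × (ℕ × List Bool) =>
      r.2.2 ++ (majAt r.1 r.2.2.length).toList :=
    Primrec.list_append.comp (Primrec.snd.comp Primrec.snd)
      (htoList.comp (majAt_primrec.comp (Primrec.pair Primrec.fst
        (Primrec.list_length.comp (Primrec.snd.comp Primrec.snd)))))
  exact Primrec.nat_rec' (f := fun Ls : List (List Bool) => (Ls.map List.length).sum)
    (g := fun _ => ([] : List Bool))
    (h := fun (Ls : List (List Bool)) (r : ℕ × List Bool) => r.2 ++ (majAt Ls r.2.length).toList)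
    hsum (Primrec.const []) hstep

/-! ### the string `comb` -/

theorem majAt_lt (Ls : List (List Bool)) (k : ℕ) (b : Bool) (h : majAt Ls k = some b) :
    k < (Ls.map List.length).sum := by
  have h1 : ∃ l ∈ Ls, k < l.length := by
    by_contra hcon
    push Not at hcon
    have h0 : ∀ c : Bool, (Ls.countP fun l => l[k]? == some c) = 0 := by
      intro c
      rw [List.countP_eq_zero]
      intro l hl
      rw [List.getElem?_eq_none (hcon l hl)]
      simp
    unfold majAt at h
    rw [h0, h0] at h
    simp at h
  obtain ⟨l, hl, hk⟩ := h1
  refine lt_of_lt_of_le hk ?_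
  exact List.single_le_sum (fun _ _ => Nat.zero_le _) _ (List.mem_map.2 ⟨l, hl, rfl⟩)

theorem comb_aux (Ls : List (List Bool)) (n : ℕ) :
    let S : List Bool := n.rec [] fun _ acc => acc ++ (majAt Ls acc.length).toList
    (∀ k, k < S.length → majAt Ls k = S[k]?) ∧
      (S.length = n ∨ (S.length < n ∧ majAt Ls S.length = none)) := by
  induction n with
  | zero => simp
  | succ n ih =>
    intro S
    set T : List Bool := n.rec [] fun _ acc => acc ++ (majAt Ls acc.length).toList with hT
    have hS : S = T ++ (majAt Ls T.length).toList := rfl
    obtain ⟨h1, h2⟩ := ih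
    rcases hm : majAt Ls T.length with _ | b
    · rw [hm] at hS
      simp only [Option.toList_none, List.append_nil] at hS
      rw [hS]
      refine ⟨h1, Or.inr ⟨?_, hm⟩⟩
      rcases h2 with h2 | h2 <;> omega
    · rw [hm] at hS
      simp only [Option.toList_some] at hS
      have h3 : T.length = n := by
        rcases h2 with h2 | h2
        · exact h2
        · rw [h2.2] at hm; simp at hm
      rw [hS]
      refine ⟨?_, Or.inl (by simp [h3])⟩
      intro k hk
      rw [List.length_append, List.length_singleton] at hk
      by_cases hk' : k < T.length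
      · rw [List.getElem?_append_left hk']
        exact h1 k hk'
      · have : k = T.length := by omega
        subst this
        rw [hm]
        simp

theorem comb_spec (Ls : List (List Bool)) :
    (∀ k, k < (comb Ls).length → majAt Ls k = (comb Ls)[k]?) ∧
      majAt Ls (comb Ls).length = none := by
  obtain ⟨h1, h2⟩ := comb_aux Ls (Ls.map List.length).sum
  refine ⟨h1, ?_⟩
  rcases h2 with h2 | h2
  · rcases hm : majAt Ls (comb Ls).length with _ | b
    · rfl
    · exfalso
      have h3 := majAt_lt Ls _ b hm
      have h4 : (comb Ls).length = (Ls.map List.length).sum := h2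
      omega
  · exact h2.2

/-- monotonicity -/
theorem comb_mono (N : ℕ) (φ φ' : ℕ → List Bool) (h : ∀ j, j < N → φ j <+: φ' j) :
    comb ((List.range N).map φ) <+: comb ((List.range N).map φ') := by
  obtain ⟨h1, h2⟩ := comb_spec ((List.range N).map φ)
  obtain ⟨h3, h4⟩ := comb_spec ((List.range N).map φ')
  set c := comb ((List.range N).map φ)
  set c' := comb ((List.range N).map φ')
  have hstep : ∀ k b, majAt ((List.range N).map φ) k = some b →
      majAt ((List.range N).map φ') k = some b := by
    intro k b hb
    rw [majAt_range, mj_iff] at hb ⊢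
    refine lt_of_lt_of_le hb (Nat.mul_le_mul_left 2 (Finset.card_le_card ?_))
    intro j hj
    rw [Finset.mem_filter] at hj ⊢
    refine ⟨hj.1, ?_⟩
    have h5 := h j (Finset.mem_range.1 hj.1)
    obtain ⟨r, hr⟩ := h5
    rw [← hr]
    obtain ⟨hlt, _⟩ := List.getElem?_eq_some_iff.1 hj.2
    rw [List.getElem?_append_left hlt]
    exact hj.2
  have hlen : c.length ≤ c'.length := by
    by_contra hcon
    push Not at hcon
    have h5 := h1 _ hcon
    rw [List.getElem?_eq_getElem hcon] at h5
    rw [hstep _ _ h5] at h4
    simp at h4
  rw [List.prefix_iff_getElem?]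
  intro i hi
  have h5 := h1 i hi
  rw [List.getElem?_eq_getElem hi] at h5
  rw [← h3 i (lt_of_lt_of_le hi hlen)]
  exact hstep _ _ h5

theorem computable_list (N : ℕ) (φ : ℕ → List Bool → List Bool)
    (h : ∀ j, j < N → Computable (φ j)) :
    Computable fun ρ => (List.range N).map fun j => φ j ρ := by
  induction N with
  | zero => exact Computable.const []
  | succ N ih =>
    have h1 := ih fun j hj => h j (Nat.lt_succ_of_lt hj)
    have h2 := h N (Nat.lt_succ_self N)
    have h3 : Computable fun ρ => ((List.range N).map fun j => φ j ρ) ++ [φ N ρ] :=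
      Computable.list_concat.comp h1 h2
    refine h3.of_eq fun ρ => ?_
    rw [List.range_succ, List.map_append]
    rfl

theorem pre_get' (z : ℕ → Bool) (t i : ℕ) : (pre z t)[i]? = if i < t then some (z i) else none := by
  unfold pre
  rw [List.getElem?_map]
  split_ifs with h
  · rw [List.getElem?_range h]; rfl
  · rw [List.getElem?_eq_none (by simpa using h)]; rfl

theorem maj : MAJ_S := by
  classical
  refine ⟨comb_primrec.to_comp, ?_, ?_⟩
  · intro N φ hφ
    refine ⟨fun ρ ρ' h => comb_mono N _ _ fun j hj => (hφ j hj).mono ρ ρ' h, ?_⟩
    exact comb_primrec.to_comp.comp (computable_list N φ fun j hj => (hφ j hj).comp)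
  · intro N φ z y hφ hN
    set J : Finset ℕ := (Finset.range N).filter fun j => Cmp (φ j) z y with hJ
    have hJcard : N < 2 * J.card := by
      unfold cnt at hN
      convert hN
    have hval : ∀ j, Cmp (φ j) z y → ∀ t k, ∀ b, (φ j (pre z t))[k]? = some b → b = y k := by
      intro j hj t k b hb
      rw [hj.1 t, pre_get'] at hb
      split_ifs at hb
      exact (Option.some.inj hb).symm
    constructor
    · intro t
      obtain ⟨h1, h2⟩ := comb_spec ((List.range N).map fun j => φ j (pre z t))
      set c := comb ((List.range N).map fun j => φ j (pre z t)) with hc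
      apply List.ext_getElem?
      intro k
      rw [pre_get']
      split_ifs with hk
      · have h3 := h1 k hk
        rw [List.getElem?_eq_getElem hk] at h3 ⊢
        rw [majAt_range, mj_iff] at h3
        obtain ⟨j, hj1, hj2⟩ := exists_common (Finset.filter_subset _ _)
          (Finset.filter_subset _ _) hJcard h3
        rw [Finset.mem_filter] at hj1 hj2
        rw [hval j hj1.2 t k _ hj2.2]
      · exact List.getElem?_eq_none (by omega)
    · intro n
      have hT : ∃ T, ∀ j ∈ J, n ≤ (φ j (pre z T)).length := by
        have h1 : ∀ j, ∃ T, j ∈ J → n ≤ (φ j (pre z T)).length := by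
          intro j
          by_cases hj : j ∈ J
          · obtain ⟨T, hT⟩ := (Finset.mem_filter.1 hj).2.2 n
            exact ⟨T, fun _ => hT⟩
          · exact ⟨0, fun h => absurd h hj⟩
        choose T hT using h1
        refine ⟨J.sup T, fun j hj => (hT j hj).trans ?_⟩
        have h2 : pre z (T j) <+: pre z (J.sup T) := by
          rw [← pre_take z (Finset.le_sup hj)]
          exact List.take_prefix _ _
        exact ((hφ j (Finset.mem_range.1 (Finset.mem_filter.1 hj).1)).mono _ _ h2).length_le
      obtain ⟨T, hT⟩ := hT
      refine ⟨T, ?_⟩
      by_contra hcon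
      push Not at hcon
      obtain ⟨h1, h2⟩ := comb_spec ((List.range N).map fun j => φ j (pre z T))
      set c := comb ((List.range N).map fun j => φ j (pre z T)) with hc
      have h3 : majAt ((List.range N).map fun j => φ j (pre z T)) c.length = some (y c.length) := by
        rw [majAt_range, mj_iff]
        refine lt_of_lt_of_le hJcard (Nat.mul_le_mul_left 2 (Finset.card_le_card ?_))
        intro j hj
        rw [Finset.mem_filter]
        refine ⟨(Finset.mem_filter.1 hj).1, ?_⟩
        have h4 : c.length < (φ j (pre z T)).length := lt_of_lt_of_le hcon (hT j hj)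
        rw [List.getElem?_eq_getElem h4]
        congr 1
        exact hval j (Finset.mem_filter.1 hj).2 T _ _ (List.getElem?_eq_getElem h4)
      rw [h3] at h2
      simp at h2

theorem majg : MAJG_S := by
  classical
  refine ⟨majO_primrec.to_comp, ?_⟩
  intro N G z b hN
  set J : Finset ℕ := (Finset.range N).filter fun j => Gd (G j) z b with hJ
  have hJcard : N < 2 * J.card := by
    unfold cnt at hN
    convert hN
  constructor
  · intro t c h
    simp only at h
    rw [majO_range, mj_iff] at h
    obtain ⟨j, hj1, hj2⟩ := exists_common (Finset.filter_subset _ _)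
      (Finset.filter_subset _ _) hJcard h
    rw [Finset.mem_filter] at hj1 hj2
    exact hj1.2.1 t c hj2.2
  · have h1 : ∀ᶠ t in atTop, ∀ j ∈ J, G j (pre z t) = some b := by
      rw [Filter.eventually_all_finset]
      intro j hj
      exact (Finset.mem_filter.1 hj).2.2
    filter_upwards [h1] with t ht
    rw [majO_range, mj_iff]
    refine lt_of_lt_of_le hJcard (Nat.mul_le_mul_left 2 (Finset.card_le_card ?_))
    intro j hj
    rw [Finset.mem_filter]
    exact ⟨(Finset.mem_filter.1 hj).1, ht j hj⟩

end Pool.Agent.Lib.MP_75b31c_lc.N40.H09
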